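import Mathlib
import Pool.Agent.K4H91.CP5

/-!
# Countable compactness of the countable powers of a topological group, in ZFC

For every countable index set `J` with at least two elements there is a Tychonoff topological group
`G` such that the power `G ^ J` is not countably compact, while the powers `G ^ I` with `I` smaller
than `J` are countably compact. If `J` has two elements, `G` is a countably compact group whose
square is not countably compact. The groups are abelian of exponent two, have at most continuum many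
elements, and have no non-trivial convergent sequences.
-/

namespace Pool.Agent.Results.MP_672973_lc.CountablePowers

open Filter Topology Cardinal

/-- Every countable open cover has a finite subcover. -/
def CountablyCompact (X : Type) [TopologicalSpace X] : Prop :=
  ∀ U : ℕ → Set X, (∀ n, IsOpen (U n)) → (⋃ n, U n) = Set.univ →
    ∃ t : Finset ℕ, (⋃ n ∈ t, U n) = Set.univ

/-- Every convergent sequence is eventually constant. -/
def NoConvergentSequences (X : Type) [TopologicalSpace X] : Prop :=
  ∀ (s : ℕ → X) (x : X), Tendsto s atTop (𝓝 x) → ∀ᶠ n in atTop, s n = x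

theorem cc_iff (X : Type) [TopologicalSpace X] : CountablyCompact X ↔ CountablyCompactSpace X := by
  rw [← isCountablyCompact_univ_iff, isCountablyCompact_iff_countable_open_cover]
  constructor
  · intro h U hU hc
    obtain ⟨t, ht⟩ := h U hU (Set.univ_subset_iff.1 hc)
    exact ⟨t, ht.ge⟩
  · intro h U hU hc
    obtain ⟨t, ht⟩ := h U hU hc.ge
    exact ⟨t, Set.univ_subset_iff.1 ht⟩

theorem cc_homeo {X Y : Type} [TopologicalSpace X] [TopologicalSpace Y] (e : X ≃ₜ Y) :
    CountablyCompactSpace X ↔ CountablyCompactSpace Y := by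
  rw [← isCountablyCompact_univ_iff, ← isCountablyCompact_univ_iff, ← Set.image_univ_of_surjective
    e.surjective, e.isEmbedding.isCountablyCompact_iff]

theorem cc_reindex (G : Type) [TopologicalSpace G] {I J : Type} (e : I ≃ J) :
    CountablyCompactSpace (I → G) ↔ CountablyCompactSpace (J → G) :=
  cc_homeo (Homeomorph.piCongrLeft (Y := fun _ : J => G) e)

theorem exists_min (n : ℕ) (hn : 1 ≤ n) : ∃ G : AddSubgroup Pool.Agent.K4H91.CP.K, #G ≤ 𝔠 ∧
    NoConvergentSequences G ∧ (∀ k ≤ n, CountablyCompactSpace (Fin k → G)) ∧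
    ¬ CountablyCompactSpace (Fin (n + 1) → G) := by
  obtain ⟨G, h1, h2, h3, _, h5⟩ := Pool.Agent.K4H91.CP.exists_group (fun m => min m n)
    (fun m k hk => ⟨k, min_eq_left (le_trans hk (min_le_right m n))⟩) ⟨1, min_eq_left hn⟩
  refine ⟨G, h1, h5, fun k hk => ?_,
    h3 (n + 1) fun m => Nat.lt_succ_of_le (min_le_right m n)⟩
  have := h2 k
  rwa [min_eq_left hk] at this

theorem exists_power (J : Type) [Countable J] [Nontrivial J] :
    ∃ G : AddSubgroup Pool.Agent.K4H91.CP.K, #G ≤ 𝔠 ∧ NoConvergentSequences G ∧
      (∀ I : Type, #I < #J → CountablyCompactSpace (I → G)) ∧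
      ¬ CountablyCompactSpace (J → G) := by
  rcases finite_or_infinite J with hJ | hJ
  · obtain ⟨N, ⟨e⟩⟩ := Finite.exists_equiv_fin J
    have hN : 1 < N := by
      have h1 : #J = N := by rw [e.cardinal_eq, mk_fin]
      have h2 : 1 < #J := one_lt_iff_nontrivial.2 inferInstance
      rw [h1] at h2
      exact_mod_cast h2
    obtain ⟨n, rfl⟩ : ∃ n, N = n + 1 := ⟨N - 1, by omega⟩
    obtain ⟨G, h1, h2, h3, h4⟩ := exists_min n (by omega)
    refine ⟨G, h1, h2, fun I hI => ?_, fun h => h4 ((cc_reindex G e).1 h)⟩
    rw [e.cardinal_eq, mk_fin] at hI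
    have hfin : Finite I := by
      rw [← lt_aleph0_iff_finite]
      exact hI.trans (natCast_lt_aleph0)
    obtain ⟨k, ⟨e'⟩⟩ := Finite.exists_equiv_fin I
    rw [e'.cardinal_eq, mk_fin] at hI
    have hk : k < n + 1 := by exact_mod_cast hI
    exact (cc_reindex G e').2 (h3 k (Nat.lt_succ_iff.1 hk))
  · obtain ⟨e⟩ : Nonempty (J ≃ ℕ) := by
      have := Classical.choice (nonempty_denumerable J)
      exact ⟨Denumerable.eqv J⟩
    obtain ⟨G, h1, h2, _, h4, h5⟩ := Pool.Agent.K4H91.CP.exists_group (fun m => m)
      (fun m k _ => ⟨k, rfl⟩) ⟨1, rfl⟩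
    refine ⟨G, h1, h5, fun I hI => ?_, fun h => h4 ((cc_reindex G e).1 h)⟩
    rw [e.cardinal_eq, mk_nat] at hI
    have hfin : Finite I := lt_aleph0_iff_finite.1 hI
    obtain ⟨k, ⟨e'⟩⟩ := Finite.exists_equiv_fin I
    exact (cc_reindex G e').2 (h2 k)

/-- ZFC proves: for every countable set `J` with at least two elements there is a topological group
`G` such that `G ^ J` is not countably compact and `G ^ I` is countably compact for all sets `I`
smaller than `J`. The case of a set `J` with two elements is a countably compact group whose square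
is not countably compact. -/
theorem result (J : Type) [Countable J] [Nontrivial J] :
    ∃ (G : Type) (_ : AddCommGroup G) (_ : TopologicalSpace G),
      IsTopologicalAddGroup G ∧ T35Space G ∧ (∀ x : G, x + x = 0) ∧ #G ≤ 𝔠 ∧
      NoConvergentSequences G ∧
      (∀ I : Type, #I < #J → CountablyCompact (I → G)) ∧ ¬ CountablyCompact (J → G) ∧
      CountablyCompact G ∧ (#J = 2 → ¬ CountablyCompact (G × G)) := by
  obtain ⟨G, h1, h2, h3, h4⟩ := exists_power J
  refine ⟨G, inferInstance, inferInstance, inferInstance, inferInstance, fun x =>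
    Subtype.ext (Pool.Agent.K4H91.CP.add_self (x : Pool.Agent.K4H91.CP.K)), h1, h2,
    fun I hI => (cc_iff _).2 (h3 I hI), fun h => h4 ((cc_iff _).1 h), (cc_iff _).2 ?_,
    fun hJ h => h4 ?_⟩
  · refine (cc_homeo (Homeomorph.funUnique Unit G)).1 (h3 Unit ?_)
    rw [mk_unit]
    exact one_lt_iff_nontrivial.2 inferInstance
  · obtain ⟨e⟩ : Nonempty (J ≃ Fin 2) := by
      rw [← Cardinal.eq, hJ, mk_fin]
      norm_num
    exact (cc_reindex G e).2 ((cc_homeo (Homeomorph.finTwoArrow (X := G))).2 ((cc_iff _).1 h))

end Pool.Agent.Results.MP_672973_lc.CountablePowers
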